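import Pool.Agent.Helper14.GS.StD
import Pool.Agent.Helper10.EP.A2

/-!
Project GS, module D6: Taylor expansion of the rows of an interpolation determinant.
-/

set_option autoImplicit false

namespace Pool.Agent.Helper81.GS

open Pool.Agent.Helper14.GS Pool.Agent.Helper10.EP Polynomial Finset

lemma iterDeriv_pow (j m : ℕ) : iteratedDeriv j (fun z : ℂ => z ^ m)
    = fun z => (m.descFactorial j : ℂ) * z ^ (m - j) := by
  induction j with
  | zero => simp
  | succ j ih =>
    rw [iteratedDeriv_succ, ih]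
    funext z
    rw [deriv_const_mul_field, deriv_pow_field, Nat.descFactorial_succ]
    push_cast
    rw [show m - (j + 1) = m - j - 1 by omega]
    ring

lemma iterDeriv_mul (j : ℕ) : ∀ (n : ℕ) (g : ℂ → ℂ), Differentiable ℂ g →
    ∃ h : ℂ → ℂ, Differentiable ℂ h ∧
      iteratedDeriv j (fun z : ℂ => z ^ (n + j) * g z) = fun z => z ^ n * h z := by
  induction j with
  | zero => exact fun n g hg => ⟨g, hg, by simp⟩
  | succ j ih =>
    intro n g hg
    obtain ⟨h, hh, e⟩ := ih (n + 1) g hg
    have hd : Differentiable ℂ (deriv h) := by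
      have h2 : ContDiff ℂ 2 h := hh.contDiff
      exact ((contDiff_succ_iff_deriv (n := 1)).1 h2).2.2.differentiable (by norm_num)
    refine ⟨fun z => ((n : ℂ) + 1) * h z + z * deriv h z, by fun_prop, ?_⟩
    rw [iteratedDeriv_succ, show n + (j + 1) = n + 1 + j by ring, e]
    funext z
    have h1 : HasDerivAt (fun z : ℂ => z ^ (n + 1) * h z)
        ((((n + 1 : ℕ) : ℂ) * z ^ n) * h z + z ^ (n + 1) * deriv h z) z := by
      have h2 := (hasDerivAt_pow (n + 1) z).fun_mul (hh z).hasDerivAt
      rw [Nat.add_sub_cancel] at h2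
      exact h2
    rw [h1.deriv]
    push_cast
    ring

lemma iterDeriv_expand (f g : ℂ → ℂ) (w : ℕ → ℂ) (T K : ℕ) (hg : Differentiable ℂ g)
    (hf : ∀ z, f z = ∑ m ∈ range (K + T), w m * z ^ m + z ^ (K + T) * g z) (j : ℕ) (hj : j ≤ T) :
    ∃ h : ℂ → ℂ, Differentiable ℂ h ∧ ∀ z, iteratedDeriv j f z
      = ∑ m ∈ range (K + T), w m * ((m.descFactorial j : ℂ) * z ^ (m - j)) + z ^ K * h z := by
  obtain ⟨h, hh, e⟩ := iterDeriv_mul j (K + (T - j)) g hg
  rw [show K + (T - j) + j = K + T by omega] at e
  refine ⟨fun z => z ^ (T - j) * h z, by fun_prop, fun z => ?_⟩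
  have hf' : f = fun z => (∑ m ∈ range (K + T), w m * z ^ m) + z ^ (K + T) * g z := funext hf
  have hc : ContDiff ℂ j (fun z : ℂ => z ^ (K + T) * g z) :=
    (Differentiable.contDiff (by fun_prop))
  have hs : ContDiff ℂ j (fun z : ℂ => ∑ m ∈ range (K + T), w m * z ^ m) :=
    (Differentiable.contDiff (by fun_prop))
  rw [hf', iteratedDeriv_fun_add hs.contDiffAt hc.contDiffAt, e]
  congr 1
  · have key : ∀ s : Finset ℕ, iteratedDeriv j (fun z : ℂ => ∑ m ∈ s, w m * z ^ m) z
        = ∑ m ∈ s, w m * ((m.descFactorial j : ℂ) * z ^ (m - j)) := by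
      intro s
      induction s using Finset.induction_on with
      | empty =>
        simp only [Finset.sum_empty]
        rw [iteratedDeriv_const]
        simp
      | insert a s ha ih =>
        have h1 : (fun z : ℂ => ∑ m ∈ insert a s, w m * z ^ m)
            = fun z => w a * z ^ a + ∑ m ∈ s, w m * z ^ m := by
          funext y
          rw [Finset.sum_insert ha]
        have hc1 : ContDiff ℂ j (fun z : ℂ => w a * z ^ a) := (Differentiable.contDiff (by fun_prop))
        have hc2 : ContDiff ℂ j (fun z : ℂ => ∑ m ∈ s, w m * z ^ m) :=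
          (Differentiable.contDiff (by fun_prop))
        have hc3 : ContDiff ℂ j (fun z : ℂ => z ^ a) := (Differentiable.contDiff (by fun_prop))
        rw [h1, iteratedDeriv_fun_add hc1.contDiffAt hc2.contDiffAt, ih, Finset.sum_insert ha,
          iteratedDeriv_const_mul _ hc3.contDiffAt, iterDeriv_pow]
    exact key _
  · beta_reduce
    rw [pow_add]
    ring

theorem D6 : StD6 := by
  intro ι T K f hf
  choose w g hg hw using fun a c => exists_taylor (f a c) (hf a c) (K + T)
  have hex : ∀ (a : Fin T) (c : ι) (j : Fin T), ∃ h : ℂ → ℂ, Differentiable ℂ h ∧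
      ∀ z, iteratedDeriv (j : ℕ) (f a c) z
        = ∑ m ∈ range (K + T), w a c m * ((m.descFactorial (j : ℕ) : ℂ) * z ^ (m - (j : ℕ)))
          + z ^ K * h z := fun a c j =>
    iterDeriv_expand (f a c) (g a c) (w a c) T K (hg a c) (hw a c) j j.2.le
  choose h hh he using hex
  refine ⟨fun a m c => w a c m, fun v γ e => ⟨fun a m x => ∑ j : Fin T, γ a j *
    ((m.descFactorial (j : ℕ) : ℂ) * v ^ (m - (j : ℕ)) * x ^ ((m - (j : ℕ)) - (m - T))),
    fun c x => e c + ∑ a, ∑ j, γ a j * (v ^ K * h a c j (x * v)), ?_, ?_, ?_⟩⟩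
  · intro a m
    fun_prop
  · intro c
    refine (differentiable_const _).add (Differentiable.fun_sum fun a _ =>
      Differentiable.fun_sum fun j _ => ?_)
    have h1 : Differentiable ℂ (fun x : ℂ => h a c j (x * v)) :=
      (hh a c j).comp (by fun_prop : Differentiable ℂ fun x : ℂ => x * v)
    fun_prop
  · intro x c
    have h1 : ∀ a j : Fin T, γ a j * iteratedDeriv (j : ℕ) (f a c) (x * v)
        = (∑ m ∈ range (K + T), x ^ (m - T) * (γ a j * ((m.descFactorial (j : ℕ) : ℂ) *
            v ^ (m - (j : ℕ)) * x ^ ((m - (j : ℕ)) - (m - T)))) * w a c m)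
          + x ^ K * (γ a j * (v ^ K * h a c j (x * v))) := by
      intro a j
      rw [he, mul_add, Finset.mul_sum]
      congr 1
      · refine Finset.sum_congr rfl fun m _ => ?_
        have h2 : x ^ (m - (j : ℕ)) = x ^ (m - T) * x ^ ((m - (j : ℕ)) - (m - T)) := by
          rw [← pow_add]
          congr 1
          have := j.2
          omega
        rw [mul_pow, h2]
        ring
      · rw [mul_pow]
        ring
    simp only [h1, Finset.sum_add_distrib]
    beta_reduce
    have h3 : ∀ a : Fin T, ∑ j : Fin T, ∑ m ∈ range (K + T), x ^ (m - T) * (γ a j *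
          ((m.descFactorial (j : ℕ) : ℂ) * v ^ (m - (j : ℕ)) *
            x ^ ((m - (j : ℕ)) - (m - T)))) * w a c m
        = ∑ m ∈ range (K + T), x ^ (m - T) * (∑ j : Fin T, γ a j *
          ((m.descFactorial (j : ℕ) : ℂ) * v ^ (m - (j : ℕ)) *
            x ^ ((m - (j : ℕ)) - (m - T)))) * w a c m := by
      intro a
      rw [Finset.sum_comm]
      refine Finset.sum_congr rfl fun m _ => ?_
      rw [Finset.mul_sum, Finset.sum_mul]
    rw [Finset.sum_congr rfl fun a _ => h3 a]
    simp only [mul_add, Finset.mul_sum]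
    ring

end Pool.Agent.Helper81.GS
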