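import Pool.Agent.Helper79.GS.St3

/-!
Project GS (MP_c2d095_lc, helper79), module ISO: isolation.
-/

set_option autoImplicit false

namespace Pool.Agent.Helper81.GS

open Pool.Agent.Helper79.GS

private theorem wk_zero {n : ℕ} {E : Fin n → Fin n → Prop} {q : ℕ} {a b : Fin n ⊕ Fin n}
    {z : Fin n → Fin n → ℤ} (h : Wk E q a b z) : q = 0 → a = b ∧ z = 0 := by
  cases h with
  | nil => exact fun _ => ⟨rfl, rfl⟩
  | cons => intro h; exact absurd h (by omega)

private theorem wk_succ {n : ℕ} {E : Fin n → Fin n → Prop} {q : ℕ} {a c : Fin n ⊕ Fin n}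
    {z : Fin n → Fin n → ℤ} (h : Wk E q a c z) : ∀ k, q = k + 1 →
      ∃ b z1 z2, Wk E k a b z1 ∧ Stp E b c z2 ∧ z = z1 + z2 := by
  cases h with
  | nil => intro k h; exact absurd h (by omega)
  | cons q a b c z z' h1 h2 =>
    intro k hk
    have : q = k := by omega
    subst this
    exact ⟨b, z, z', h1, h2, rfl⟩

private theorem stp_two {n : ℕ} {E : Fin n → Fin n → Prop} {a b : Fin n ⊕ Fin n}
    {z1 z2 : Fin n → Fin n → ℤ} (h1 : Stp E a b z1) (h2 : Stp E b a z2) : z1 + z2 = 0 := by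
  cases h1 with
  | stay =>
    cases h2 with
    | stay => simp
  | fw i j _ =>
    cases h2 with
    | bw _ _ _ => simp
  | bw i j _ =>
    cases h2 with
    | fw _ _ _ => simp

private theorem noCyc_one {n : ℕ} (E : Fin n → Fin n → Prop) : NoCyc E (2 ^ 0) := by
  intro a z h
  obtain ⟨b, z1, z2, h1, h2, rfl⟩ := wk_succ h 1 (by norm_num)
  obtain ⟨b', z3, z4, h3, h4, rfl⟩ := wk_succ h1 0 rfl
  obtain ⟨rfl, rfl⟩ := wk_zero h3 rfl
  rw [zero_add]
  exact stp_two h4 h2

private theorem horner (C k : ℕ) (a : ℕ → ℕ) :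
    ∑ j ∈ Finset.range (k + 1), a j * C ^ (k - j) =
      C * ∑ j ∈ Finset.range k, a j * C ^ (k - 1 - j) + a k := by
  rw [Finset.sum_range_succ, Nat.sub_self, pow_zero, mul_one, Finset.mul_sum]
  congr 1
  apply Finset.sum_congr rfl
  intro j hj
  rw [Finset.mem_range] at hj
  rw [show k - j = (k - 1 - j) + 1 by omega, pow_succ]
  ring

private theorem lex (C r : ℕ) (a b : ℕ → ℕ) (heq : ∀ j < r, a j = b j) (hlt : a r < b r)
    (k : ℕ) (hC : ∀ j ≤ r + k, a j < C) :
    ∑ j ∈ Finset.range (r + k + 1), a j * C ^ (r + k - j) <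
      ∑ j ∈ Finset.range (r + k + 1), b j * C ^ (r + k - j) := by
  induction k with
  | zero =>
    rw [add_zero, horner, horner]
    have : ∑ j ∈ Finset.range r, a j * C ^ (r - 1 - j) =
        ∑ j ∈ Finset.range r, b j * C ^ (r - 1 - j) := by
      apply Finset.sum_congr rfl
      intro j hj
      rw [heq j (Finset.mem_range.1 hj)]
    rw [this]
    omega
  | succ k ih =>
    have h1 := ih (fun j hj => hC j (by omega))
    have h2 := hC (r + (k + 1)) le_rfl
    rw [horner, horner]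
    have e : r + (k + 1) - 1 = r + k := by omega
    rw [e, show r + (k + 1) = r + k + 1 by ring] at *
    have h3 := Nat.mul_le_mul_left C h1
    rw [Nat.succ_eq_add_one, Nat.mul_add, mul_one] at h3
    omega

/-- the rounds -/
private theorem rounds (hRND : StRND) (L : ℕ) (E : Fin (2 ^ L) → Fin (2 ^ L) → Prop)
    (hE : ∃ σ, PMt E σ) : ∀ m ≤ L, ∃ (t : ℕ → ℕ) (E' : Fin (2 ^ L) → Fin (2 ^ L) → Prop),
      (∀ r, 1 ≤ t r ∧ t r ≤ 2 ^ (7 * L + 7)) ∧ (∀ i j, E' i j → E i j) ∧ (∃ σ, PMt E' σ) ∧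
      NoCyc E' (2 ^ m) ∧ ∀ σ, PMt E' σ → ∀ τ, PMt E τ →
        (PMt E' τ ∧ ∀ r < m, wsum (fun i j => we L (t r) i.val j.val) σ =
          wsum (fun i j => we L (t r) i.val j.val) τ) ∨
        ∃ r < m, (∀ j < r, wsum (fun i j' => we L (t j) i.val j'.val) σ =
          wsum (fun i j' => we L (t j) i.val j'.val) τ) ∧
          wsum (fun i j => we L (t r) i.val j.val) σ <
            wsum (fun i j => we L (t r) i.val j.val) τ := by
  intro m
  induction m with
  | zero =>
    intro _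
    exact ⟨fun _ => 1, E, fun r => ⟨le_rfl, Nat.one_le_two_pow⟩, fun i j h => h, hE,
      noCyc_one E, fun σ _ τ hτ => Or.inl ⟨hτ, fun r hr => absurd hr (by omega)⟩⟩
  | succ m ih =>
    intro hm
    obtain ⟨t, E', ht, hE', hex, hnc, hlex⟩ := ih (by omega)
    have h4 : 4 * 2 ^ m ≤ 2 * 2 ^ L := by
      have : 2 ^ (m + 1) ≤ 2 ^ L := Nat.pow_le_pow_right (by norm_num) hm
      rw [pow_succ] at this
      omega
    obtain ⟨t0, ht1, ht2, E'', hsub, hex', hnc', hmin⟩ := hRND L E' (2 ^ m) h4 hnc hex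
    have hup : ∀ j < m, Function.update t m t0 j = t j := fun j hj =>
      Function.update_of_ne (by omega) _ _
    refine ⟨Function.update t m t0, E'', fun r => ?_, fun i j h => hE' i j (hsub i j h), hex',
      by rw [pow_succ, mul_comm]; exact hnc', fun σ hσ τ hτ => ?_⟩
    · by_cases hr : r = m
      · rw [hr, Function.update_self]
        exact ⟨ht1, ht2⟩
      · rw [Function.update_of_ne hr]
        exact ht r
    · have hσ' : PMt E' σ := fun a => hsub _ _ (hσ a)
      rcases hlex σ hσ' τ hτ with ⟨h1, h2⟩ | ⟨r, hr, h1, h2⟩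
      · obtain ⟨h3, h5⟩ := hmin σ hσ τ h1
        rcases h3.lt_or_eq with h6 | h6
        · right
          refine ⟨m, by omega, fun j hj => ?_, ?_⟩
          · rw [hup j hj]
            exact h2 j hj
          · rw [Function.update_self]
            exact h6
        · left
          refine ⟨h5 h6.ge, fun r hr => ?_⟩
          by_cases hrm : r = m
          · rw [hrm, Function.update_self]
            exact h6
          · rw [hup r (by omega)]
            exact h2 r (by omega)
      · right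
        refine ⟨r, by omega, fun j hj => ?_, ?_⟩
        · rw [hup j (by omega)]
          exact h1 j hj
        · rw [hup r hr]
          exact h2

private theorem wsum_wt (L : ℕ) (t : ℕ → ℕ) (σ : Equiv.Perm (Fin (2 ^ L))) :
    wsum (fun i j => wt L t i.val j.val) σ =
      ∑ r ∈ Finset.range L, wsum (fun i j => we L (t r) i.val j.val) σ *
        (2 ^ (8 * L + 8)) ^ (L - 1 - r) := by
  unfold wsum wt
  rw [Finset.sum_comm]
  apply Finset.sum_congr rfl
  intro r _
  rw [Finset.sum_mul]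

private theorem wsum_lt (L t : ℕ) (ht1 : 1 ≤ t) (ht : t ≤ 2 ^ (7 * L + 7))
    (σ : Equiv.Perm (Fin (2 ^ L))) :
    wsum (fun i j => we L t i.val j.val) σ < 2 ^ (8 * L + 8) := by
  calc wsum (fun i j => we L t i.val j.val) σ ≤ ∑ _a : Fin (2 ^ L), 2 ^ (7 * L + 7) := by
        apply Finset.sum_le_sum
        intro a _
        exact ((Nat.mod_lt _ ht1).trans_le ht).le
    _ = 2 ^ L * 2 ^ (7 * L + 7) := by simp
    _ = 2 ^ (8 * L + 7) := by rw [← pow_add]; congr 1; ring
    _ < 2 ^ (8 * L + 8) := Nat.pow_lt_pow_right (by norm_num) (by omega)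

theorem hISO (hRND : StRND) (hUNQ : StUNQ) : StISO := by
  intro L E hE
  obtain ⟨t, E', ht, hE', ⟨σ₀, hσ₀⟩, hnc, hlex⟩ := rounds hRND L E hE L le_rfl
  refine ⟨t, ht, σ₀, fun a => hE' _ _ (hσ₀ a), fun τ hτ hne => ?_⟩
  rcases hlex σ₀ hσ₀ τ hτ with ⟨h1, -⟩ | ⟨r, hr, h1, h2⟩
  · exact absurd (hUNQ (2 ^ L) E' (2 ^ L) le_rfl hnc τ σ₀ h1 hσ₀) hne
  · rw [wsum_wt, wsum_wt]
    obtain ⟨k, hk⟩ : ∃ k, L = r + k + 1 := ⟨L - r - 1, by omega⟩
    have h3 := lex (2 ^ (8 * L + 8)) r
      (fun j => wsum (fun i j' => we L (t j) i.val j'.val) σ₀)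
      (fun j => wsum (fun i j' => we L (t j) i.val j'.val) τ) h1 h2 k
      (fun j _ => wsum_lt L (t j) (ht j).1 (ht j).2 σ₀)
    have e1 : Finset.range L = Finset.range (r + k + 1) := by rw [← hk]
    have e2 : ∀ j, L - 1 - j = r + k - j := fun j => by omega
    simp only [e1, e2]
    exact h3

end Pool.Agent.Helper81.GS
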